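import Mathlib

set_option autoImplicit false

open Finset

namespace Pool.Agent.Lib_helper7.Davie

/-- sign lemma, inductive form -/
theorem sign_aux {ι J : Type*} [Fintype ι] [DecidableEq J] (v : ι → J → ℝ)
    (hv : ∀ i j, v i j = 1 ∨ v i j = -1) (lam : ℝ) (s : Finset J) :
    ∃ ε : J → ℝ, (∀ j, ε j = 1 ∨ ε j = -1) ∧
      ∑ i, (Real.exp (lam * ∑ j ∈ s, ε j * v i j) + Real.exp (-(lam * ∑ j ∈ s, ε j * v i j)))
        ≤ 2 * Fintype.card ι * Real.cosh lam ^ s.card := by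
  induction s using Finset.induction_on with
  | empty =>
    refine ⟨fun _ => 1, fun _ => Or.inl rfl, ?_⟩
    simp
    linarith
  | insert a s ha ih =>
    obtain ⟨ε, hε, hs⟩ := ih
    set S : ι → ℝ := fun i => lam * ∑ j ∈ s, ε j * v i j with hS
    -- potential after choosing sign t at a
    set P : ℝ → ℝ := fun t => ∑ i, (Real.exp (S i + lam * (t * v i a))
      + Real.exp (-(S i + lam * (t * v i a)))) with hP
    have key : P 1 + P (-1) = 2 * Real.cosh lam * ∑ i, (Real.exp (S i) + Real.exp (-(S i))) := by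
      rw [hP]
      simp only
      rw [← Finset.sum_add_distrib, Finset.mul_sum]
      refine Finset.sum_congr rfl fun i _ => ?_
      rw [Real.cosh_eq]
      rcases hv i a with h | h <;> rw [h] <;>
        simp only [mul_one, mul_neg, neg_add, neg_neg, Real.exp_add] <;> ring
    have hcosh : 0 < Real.cosh lam := Real.cosh_pos lam
    have hle : 2 * Real.cosh lam * ∑ i, (Real.exp (S i) + Real.exp (-(S i)))
        ≤ 2 * (2 * Fintype.card ι * Real.cosh lam ^ (s.card + 1)) := by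
      have := mul_le_mul_of_nonneg_left hs (by positivity : (0:ℝ) ≤ 2 * Real.cosh lam)
      calc _ ≤ _ := this
        _ = _ := by ring
    have hor : P 1 ≤ 2 * Fintype.card ι * Real.cosh lam ^ (s.card + 1) ∨
        P (-1) ≤ 2 * Fintype.card ι * Real.cosh lam ^ (s.card + 1) := by
      by_contra hcon
      push Not at hcon
      linarith [hcon.1, hcon.2]
    have build : ∀ t : ℝ, (t = 1 ∨ t = -1) → P t ≤ 2 * Fintype.card ι * Real.cosh lam ^ (s.card + 1) →
        ∃ ε : J → ℝ, (∀ j, ε j = 1 ∨ ε j = -1) ∧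
      ∑ i, (Real.exp (lam * ∑ j ∈ insert a s, ε j * v i j)
        + Real.exp (-(lam * ∑ j ∈ insert a s, ε j * v i j)))
        ≤ 2 * Fintype.card ι * Real.cosh lam ^ (insert a s).card := by
      intro t ht hPt
      refine ⟨Function.update ε a t, ?_, ?_⟩
      · intro j
        by_cases hj : j = a
        · subst hj; simpa using ht
        · rw [Function.update_of_ne hj]; exact hε j
      · rw [Finset.card_insert_of_notMem ha]
        refine le_trans (le_of_eq ?_) hPt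
        rw [hP]
        refine Finset.sum_congr rfl fun i _ => ?_
        have h1 : lam * ∑ j ∈ insert a s, Function.update ε a t j * v i j
            = S i + lam * (t * v i a) := by
          rw [Finset.sum_insert ha, hS]
          have : ∑ j ∈ s, Function.update ε a t j * v i j = ∑ j ∈ s, ε j * v i j := by
            refine Finset.sum_congr rfl fun j hj => ?_
            rw [Function.update_of_ne (by rintro rfl; exact ha hj)]
          rw [this]
          simp
          ring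
        rw [h1]
    rcases hor with h | h
    · exact build 1 (Or.inl rfl) h
    · exact build (-1) (Or.inr rfl) h

/-- **Sign lemma.** -/
theorem sign_lemma {ι J : Type*} [Fintype ι] [Fintype J] [DecidableEq J] (v : ι → J → ℝ)
    (hv : ∀ i j, v i j = 1 ∨ v i j = -1) (lam L : ℝ)
    (hL : 2 * (Fintype.card ι : ℝ) ≤ Real.exp L) :
    ∃ ε : J → ℝ, (∀ j, ε j = 1 ∨ ε j = -1) ∧
      ∀ i, lam * |∑ j, ε j * v i j| ≤ L + lam ^ 2 / 2 * Fintype.card J := by
  obtain ⟨ε, hε, h⟩ := sign_aux v hv lam Finset.univ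
  refine ⟨ε, hε, fun i => ?_⟩
  have h1 : Real.exp (lam * |∑ j, ε j * v i j|) ≤
      ∑ i, (Real.exp (lam * ∑ j, ε j * v i j) + Real.exp (-(lam * ∑ j, ε j * v i j))) := by
    have h2 : Real.exp (lam * |∑ j, ε j * v i j|) ≤
        Real.exp (lam * ∑ j, ε j * v i j) + Real.exp (-(lam * ∑ j, ε j * v i j)) := by
      rcases abs_cases (∑ j, ε j * v i j) with ⟨h, _⟩ | ⟨h, _⟩
      · rw [h]; linarith [Real.exp_pos (-(lam * ∑ j, ε j * v i j))]
      · rw [h, mul_neg]; linarith [Real.exp_pos (lam * ∑ j, ε j * v i j)]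
    refine h2.trans ?_
    exact Finset.single_le_sum (f := fun i => Real.exp (lam * ∑ j, ε j * v i j)
      + Real.exp (-(lam * ∑ j, ε j * v i j))) (fun i _ => by positivity) (Finset.mem_univ i)
  have h3 : Real.cosh lam ^ (Finset.univ : Finset J).card ≤
      Real.exp (lam ^ 2 / 2 * Fintype.card J) := by
    rw [mul_comm, Real.exp_nat_mul, Finset.card_univ]
    exact pow_le_pow_left₀ (Real.cosh_pos lam).le (Real.cosh_le_exp_half_sq lam) _
  have h4 : Real.exp (lam * |∑ j, ε j * v i j|) ≤ Real.exp (L + lam ^ 2 / 2 * Fintype.card J) := by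
    rw [Real.exp_add]
    calc _ ≤ _ := h1
      _ ≤ _ := h
      _ ≤ _ := mul_le_mul hL h3 (pow_nonneg (Real.cosh_pos lam).le _) (Real.exp_pos _).le
  exact Real.exp_le_exp.1 h4

/-! ### Walsh matrices -/

/-- the `2 × 2` Hadamard matrix -/
def hs (a b : Bool) : ℝ := if a && b then -1 else 1

/-- the Walsh matrix of size `2^k` -/
def H (k : ℕ) (j g : Fin k → Bool) : ℝ := ∏ m, hs (j m) (g m)

theorem pm_mul {a b : ℝ} (ha : a = 1 ∨ a = -1) (hb : b = 1 ∨ b = -1) : a * b = 1 ∨ a * b = -1 := by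
  rcases ha with rfl | rfl <;> rcases hb with rfl | rfl <;> norm_num

theorem pm_sq {a : ℝ} (ha : a = 1 ∨ a = -1) : a * a = 1 := by
  rcases ha with rfl | rfl <;> norm_num

theorem pm_abs {a : ℝ} (ha : a = 1 ∨ a = -1) : |a| = 1 := by
  rcases ha with rfl | rfl <;> norm_num

theorem hs_pm (a b : Bool) : hs a b = 1 ∨ hs a b = -1 := by
  unfold hs; split_ifs <;> simp

theorem H_pm (k : ℕ) (j g : Fin k → Bool) : H k j g = 1 ∨ H k j g = -1 := by
  unfold H
  induction (Finset.univ : Finset (Fin k)) using Finset.induction_on with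
  | empty => left; simp
  | insert a s ha ih => rw [Finset.prod_insert ha]; exact pm_mul (hs_pm _ _) ih

theorem H_symm (k : ℕ) (j g : Fin k → Bool) : H k j g = H k g j := by
  unfold H
  refine Finset.prod_congr rfl fun m _ => ?_
  unfold hs
  rw [Bool.and_comm]

theorem H_row (k : ℕ) (j j' : Fin k → Bool) :
    ∑ g, H k j g * H k j' g = if j = j' then (2 : ℝ) ^ k else 0 := by
  have h1 : ∑ g, H k j g * H k j' g = ∏ m : Fin k, ∑ b : Bool, hs (j m) b * hs (j' m) b := by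
    rw [Finset.prod_univ_sum, Fintype.piFinset_univ]
    refine Finset.sum_congr rfl fun g _ => ?_
    unfold H
    rw [Finset.prod_mul_distrib]
  have h2 : ∀ a b : Bool, ∑ c : Bool, hs a c * hs b c = if a = b then (2 : ℝ) else 0 := by
    intro a b
    rw [Fintype.sum_bool]
    cases a <;> cases b <;> simp [hs] <;> norm_num
  rw [h1]
  split_ifs with h
  · subst h
    rw [Finset.prod_congr rfl fun m _ => (h2 (j m) (j m)).trans (if_pos rfl)]
    simp
  · obtain ⟨m, hm⟩ := Function.ne_iff.1 h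
    exact Finset.prod_eq_zero (Finset.mem_univ m) (by rw [h2, if_neg hm])

theorem H_col (k : ℕ) (g g' : Fin k → Bool) :
    ∑ j, H k j g * H k j g' = if g = g' then (2 : ℝ) ^ k else 0 := by
  rw [← H_row]
  exact Finset.sum_congr rfl fun j _ => by rw [H_symm k j g, H_symm k j g']

/-! ### the numerical rate -/

theorem rate (k : ℕ) : ((2 : ℝ) * k + 16) * (2/3 : ℝ) ^ k ≤ 16 * (3/4 : ℝ) ^ k := by
  have h1 : (1 : ℝ) + k * (1/8 : ℝ) ≤ (1 + 1/8 : ℝ) ^ k :=
    one_add_mul_le_pow (by norm_num) k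
  have h2 : (3/4 : ℝ) ^ k = (1 + 1/8 : ℝ) ^ k * (2/3 : ℝ) ^ k := by
    rw [← mul_pow]; norm_num
  rw [h2]
  have h3 : (0 : ℝ) ≤ (2/3 : ℝ) ^ k := by positivity
  nlinarith

/-- sign lemma in the form used below -/
theorem sign_rate {ι J : Type*} [Fintype ι] [Fintype J] [DecidableEq J] (v : ι → J → ℝ)
    (hv : ∀ i j, v i j = 1 ∨ v i j = -1) (k : ℕ) (hJ : Fintype.card J = 2 ^ k)
    (hι : Fintype.card ι ≤ 2 ^ (2 * k + 15)) :
    ∃ ε : J → ℝ, (∀ j, ε j = 1 ∨ ε j = -1) ∧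
      ∀ i, |∑ j, ε j * v i j| ≤ 17 * (3/4 : ℝ) ^ k * 2 ^ k := by
  have hL : 2 * (Fintype.card ι : ℝ) ≤ Real.exp (2 * k + 16 : ℝ) := by
    have h1 : (Fintype.card ι : ℝ) ≤ 2 ^ (2 * k + 15) := by exact_mod_cast hι
    have h2 : (2 : ℝ) ^ (2 * k + 16) ≤ Real.exp 1 ^ (2 * k + 16) := by
      have := Real.add_one_le_exp (1 : ℝ)
      exact pow_le_pow_left₀ (by norm_num) (by linarith) _
    have h3 : Real.exp 1 ^ (2 * k + 16) = Real.exp (2 * k + 16 : ℝ) := by
      rw [← Real.exp_nat_mul]; push_cast; ring_nf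
    rw [← h3]
    refine le_trans ?_ h2
    rw [pow_succ]
    linarith
  obtain ⟨ε, hε, h⟩ := sign_lemma v hv ((3/4 : ℝ) ^ k) (2 * k + 16) hL
  refine ⟨ε, hε, fun i => ?_⟩
  have h1 := h i
  rw [hJ] at h1
  push_cast at h1
  have hpos : (0 : ℝ) < (3/4 : ℝ) ^ k := by positivity
  -- divide by lam
  have h2 : (2 * k + 16 : ℝ) ≤ (3/4 : ℝ) ^ k * (16 * (3/4 : ℝ) ^ k * 2 ^ k) := by
    have hr := rate k
    have h4 : (0 : ℝ) < (3/2 : ℝ) ^ k := by positivity
    have h5 := mul_le_mul_of_nonneg_right hr h4.le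
    have h6 : (2/3 : ℝ) ^ k * (3/2 : ℝ) ^ k = 1 := by rw [← mul_pow]; norm_num
    have h7 : (3/4 : ℝ) ^ k * 2 ^ k = (3/2 : ℝ) ^ k := by rw [← mul_pow]; norm_num
    calc (2 * k + 16 : ℝ) = (2 * k + 16 : ℝ) * (2/3 : ℝ) ^ k * (3/2 : ℝ) ^ k := by
          rw [mul_assoc, h6, mul_one]
      _ ≤ 16 * (3/4 : ℝ) ^ k * (3/2 : ℝ) ^ k := h5
      _ = (3/4 : ℝ) ^ k * (16 * ((3/4 : ℝ) ^ k * 2 ^ k)) := by rw [h7]; ring
      _ = _ := by ring
  have h3 : (3/4 : ℝ) ^ k * |∑ j, ε j * v i j| ≤ (3/4 : ℝ) ^ k * (17 * (3/4 : ℝ) ^ k * 2 ^ k) := by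
    have h8 : ((3/4 : ℝ) ^ k) ^ 2 / 2 * 2 ^ k ≤ (3/4 : ℝ) ^ k * ((3/4 : ℝ) ^ k * 2 ^ k) := by
      have : (0:ℝ) ≤ ((3/4 : ℝ) ^ k) ^ 2 * 2 ^ k := by positivity
      nlinarith
    calc _ ≤ _ := h1
      _ ≤ (3/4 : ℝ) ^ k * (16 * (3/4 : ℝ) ^ k * 2 ^ k) + (3/4 : ℝ) ^ k * ((3/4 : ℝ) ^ k * 2 ^ k) :=
          add_le_add h2 h8
      _ = _ := by ring
  exact le_of_mul_le_mul_left h3 hpos

end Pool.Agent.Lib_helper7.Davie
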