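import Mathlib
import Pool.Agent.Lib_helper7.Davie.Signs

set_option autoImplicit false

open Finset

namespace Pool.Agent.Lib_helper7.Davie

/-- index set of the `k`-th block of basis vectors, of cardinality `2^k` -/
abbrev JJ (k : ℕ) : Type := Fin k → Bool

abbrev WW : Type := Bool × Bool

/-- index set of the `k`-th block of coordinates, of cardinality `4 * 2^k` -/
abbrev GG (k : ℕ) : Type := JJ k × WW

theorem card_JJ (k : ℕ) : Fintype.card (JJ k) = 2 ^ k := by simp

theorem card_GG (k : ℕ) : Fintype.card (GG k) = 2 ^ k * 4 := by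
  simp [GG, JJ, WW]

theorem exists_f (k : ℕ) : ∃ f : JJ k → WW → ℝ, (∀ j w, f j w = 1 ∨ f j w = -1) ∧
    ∀ w w', w ≠ w' → ∀ g g', |∑ j, H k j g * H k j g' * (f j w * f j w')|
      ≤ 17 * (3/4 : ℝ) ^ k * 2 ^ k := by
  have hHH : ∀ (g g' j : JJ k), H k j g * H k j g' = 1 ∨ H k j g * H k j g' = -1 :=
    fun g g' j => pm_mul (H_pm k j g) (H_pm k j g')
  obtain ⟨f0, hf0, h0⟩ := sign_rate (ι := JJ k × JJ k) (J := JJ k)
    (fun p j => H k j p.1 * H k j p.2) (fun p j => hHH p.1 p.2 j) k (card_JJ k) (by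
      rw [Fintype.card_prod, card_JJ, ← pow_add]
      exact Nat.pow_le_pow_right (by norm_num) (by omega))
  obtain ⟨f1, hf1, h1⟩ := sign_rate (ι := (JJ k × JJ k) × Bool) (J := JJ k)
    (fun p j => H k j p.1.1 * H k j p.1.2 * (if p.2 then f0 j else 1))
    (fun p j => pm_mul (hHH _ _ j) (by split_ifs; exacts [hf0 j, Or.inl rfl])) k (card_JJ k) (by
      rw [Fintype.card_prod, Fintype.card_prod, card_JJ, ← pow_add, Fintype.card_bool, ← pow_succ]
      exact Nat.pow_le_pow_right (by norm_num) (by omega))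
  have e0 : ∀ g g', |∑ j, H k j g * H k j g' * f0 j| ≤ 17 * (3/4 : ℝ) ^ k * 2 ^ k := by
    intro g g'
    refine le_trans (le_of_eq ?_) (h0 (g, g'))
    congr 1
    exact Finset.sum_congr rfl fun j _ => by ring
  have e1 : ∀ g g', |∑ j, H k j g * H k j g' * f1 j| ≤ 17 * (3/4 : ℝ) ^ k * 2 ^ k := by
    intro g g'
    refine le_trans (le_of_eq ?_) (h1 ((g, g'), false))
    congr 1
    exact Finset.sum_congr rfl fun j _ => by simp; ring
  have e2 : ∀ g g', |∑ j, H k j g * H k j g' * (f0 j * f1 j)| ≤ 17 * (3/4 : ℝ) ^ k * 2 ^ k := by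
    intro g g'
    refine le_trans (le_of_eq ?_) (h1 ((g, g'), true))
    congr 1
    exact Finset.sum_congr rfl fun j _ => by simp; ring
  refine ⟨fun j w => (if w.1 then f0 j else 1) * (if w.2 then f1 j else 1), ?_, ?_⟩
  · intro j w
    exact pm_mul (by split_ifs; exacts [hf0 j, Or.inl rfl]) (by split_ifs; exacts [hf1 j, Or.inl rfl])
  · have s0 : ∀ j, f0 j * f0 j = 1 := fun j => pm_sq (hf0 j)
    have s1 : ∀ j, f1 j * f1 j = 1 := fun j => pm_sq (hf1 j)
    have s0' : ∀ j x, f0 j * x * f0 j = x := fun j x => by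
      rw [mul_right_comm, s0, one_mul]
    have s0'' : ∀ j x, f0 j * (f0 j * x) = x := fun j x => by
      rw [← mul_assoc, s0, one_mul]
    have s1' : ∀ j x, x * f1 j * f1 j = x := fun j x => by
      rw [mul_assoc, s1, mul_one]
    rintro ⟨a, b⟩ ⟨a', b'⟩ hne g g'
    have hA := e0 g g'
    have hB := e1 g g'
    have hC := e2 g g'
    have hC' : |∑ j, H k j g * H k j g' * (f1 j * f0 j)| ≤ 17 * (3/4 : ℝ) ^ k * 2 ^ k := by
      refine le_trans (le_of_eq ?_) hC
      congr 1
      exact Finset.sum_congr rfl fun j _ => by ring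
    have hB1 : |∑ j, H k j g * H k j g' * (f0 j * f1 j * f0 j)| ≤ 17 * (3/4 : ℝ) ^ k * 2 ^ k := by
      simpa only [s0'] using hB
    have hB2 : |∑ j, H k j g * H k j g' * (f0 j * (f0 j * f1 j))| ≤ 17 * (3/4 : ℝ) ^ k * 2 ^ k := by
      simpa only [s0''] using hB
    have hA1 : |∑ j, H k j g * H k j g' * (f0 j * f1 j * f1 j)| ≤ 17 * (3/4 : ℝ) ^ k * 2 ^ k := by
      simpa only [s1'] using hA
    have hA2 : |∑ j, H k j g * H k j g' * (f1 j * (f0 j * f1 j))| ≤ 17 * (3/4 : ℝ) ^ k * 2 ^ k := by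
      refine le_trans (le_of_eq ?_) hA1
      congr 1
      exact Finset.sum_congr rfl fun j _ => by ring
    cases a <;> cases b <;> cases a' <;> cases b' <;>
      simp_all only [ne_eq, not_true_eq_false, if_true, if_false, mul_one, one_mul,
        Bool.false_eq_true, Prod.mk.injEq, and_true, and_false, and_self, not_false_eq_true]


/-- two orthogonal characters of `WW`, also orthogonal to the constant `1` -/
def chi (c : Bool) (w : WW) : ℝ := if c then (if w.1 then -1 else 1) else (if w.2 then -1 else 1)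

theorem chi_pm (c : Bool) (w : WW) : chi c w = 1 ∨ chi c w = -1 := by
  unfold chi; split_ifs <;> simp

theorem sum_chi (c : Bool) : ∑ w : WW, chi c w = 0 := by
  cases c <;> simp [chi, WW, Fintype.sum_prod_type]

theorem sum_chi_chi (c c' : Bool) : ∑ w : WW, chi c w * chi c' w = if c = c' then 4 else 0 := by
  cases c <;> cases c' <;> simp [chi, WW, Fintype.sum_prod_type] <;> norm_num

theorem sum_JJ_succ (k : ℕ) (F : JJ (k + 1) → ℝ) :
    ∑ i, F i = ∑ c : Bool, ∑ j : JJ k, F (Fin.cons c j) := by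
  rw [← Fintype.sum_prod_type', ← (Fin.consEquiv (fun _ : Fin (k + 1) => Bool)).sum_comp]
  rfl

/-- The matrices used in Davie's construction. -/
theorem exists_matrices :
    ∃ (U : ∀ k, JJ (k + 1) → GG k → ℝ) (V : ∀ k, JJ k → GG k → ℝ),
      (∀ k i g, U k i g = 1 ∨ U k i g = -1) ∧
      (∀ k j g, V k j g = 1 ∨ V k j g = -1) ∧
      (∀ k i i', ∑ g, U k i g * U k i' g = if i = i' then (2 : ℝ) ^ k * 4 else 0) ∧
      (∀ k j j', ∑ g, V k j g * V k j' g = if j = j' then (2 : ℝ) ^ k * 4 else 0) ∧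
      (∀ k i j, ∑ g, U k i g * V k j g = 0) ∧
      (∀ k g h, |((2 : ℝ) ^ (k + 1))⁻¹ * ∑ i, U k i g * U k i h
          - ((2 : ℝ) ^ k)⁻¹ * ∑ j, V k j g * V k j h| ≤ 34 * (3/4 : ℝ) ^ k) ∧
      (∀ k g h, |((2 : ℝ) ^ (k + 1))⁻¹ * ∑ i, V (k + 1) i g * U k i h| ≤ 34 * (3/4 : ℝ) ^ k) := by
  choose f hf hfs using exists_f
  -- the matrices before the last sign change
  let U : ∀ k, JJ (k + 1) → GG k → ℝ := fun k i g =>
    H k (Fin.tail i) g.1 * (f k (Fin.tail i) g.2 * chi (i 0) g.2)
  let V' : ∀ k, JJ k → GG k → ℝ := fun k j g => H k j g.1 * f k j g.2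
  have hU : ∀ k i g, U k i g = 1 ∨ U k i g = -1 := fun k i g =>
    pm_mul (H_pm _ _ _) (pm_mul (hf _ _ _) (chi_pm _ _))
  have hV' : ∀ k j g, V' k j g = 1 ∨ V' k j g = -1 := fun k j g => pm_mul (H_pm _ _ _) (hf _ _ _)
  -- the signs
  have hex : ∀ k, ∃ ε : JJ (k + 1) → ℝ, (∀ j, ε j = 1 ∨ ε j = -1) ∧
      ∀ p : GG (k + 1) × GG k, |∑ j, ε j * (V' (k + 1) j p.1 * U k j p.2)|
        ≤ 17 * (3/4 : ℝ) ^ (k + 1) * 2 ^ (k + 1) := by
    intro k
    refine sign_rate (fun (p : GG (k + 1) × GG k) (j : JJ (k + 1)) => V' (k + 1) j p.1 * U k j p.2)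
      (fun p j => pm_mul (hV' _ _ _) (hU _ _ _)) (k + 1) (card_JJ _) ?_
    rw [Fintype.card_prod, card_GG, card_GG]
    calc 2 ^ (k + 1) * 4 * (2 ^ k * 4) = 2 ^ (2 * k + 5) := by ring
      _ ≤ _ := Nat.pow_le_pow_right (by norm_num) (by omega)
  choose e he hes using hex
  let ε : ∀ k, JJ k → ℝ := fun k => match k with
    | 0 => fun _ => 1
    | k + 1 => e k
  have hε : ∀ k j, ε k j = 1 ∨ ε k j = -1 := by
    intro k j
    cases k with
    | zero => left; rfl
    | succ k => exact he k j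
  have hεs : ∀ k, ε (k + 1) = e k := fun k => rfl
  refine ⟨U, fun k j g => ε k j * V' k j g, hU, fun k j g => pm_mul (hε _ _) (hV' _ _ _),
    ?_, ?_, ?_, ?_, ?_⟩
  · -- rows of U
    intro k i i'
    have h1 : ∑ g, U k i g * U k i' g = (∑ g, H k (Fin.tail i) g * H k (Fin.tail i') g) *
        ∑ w, (f k (Fin.tail i) w * chi (i 0) w) * (f k (Fin.tail i') w * chi (i' 0) w) := by
      rw [Fintype.sum_prod_type, Finset.sum_mul_sum]
      exact Finset.sum_congr rfl fun g _ => Finset.sum_congr rfl fun w _ => by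
        simp only [U]; ring
    rw [h1, H_row]
    by_cases ht : Fin.tail i = Fin.tail i'
    · rw [if_pos ht, ht]
      have h2 : ∑ w, (f k (Fin.tail i') w * chi (i 0) w) * (f k (Fin.tail i') w * chi (i' 0) w)
          = ∑ w, chi (i 0) w * chi (i' 0) w := by
        refine Finset.sum_congr rfl fun w _ => ?_
        have := pm_sq (hf k (Fin.tail i') w)
        calc _ = (f k (Fin.tail i') w * f k (Fin.tail i') w) * (chi (i 0) w * chi (i' 0) w) := by
              ring
          _ = _ := by rw [this, one_mul]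
      rw [h2, sum_chi_chi]
      by_cases h0 : i 0 = i' 0
      · have hii : i = i' := by
          rw [← Fin.cons_self_tail i, ← Fin.cons_self_tail i', h0, ht]
        rw [if_pos h0, if_pos hii]
      · have hii : i ≠ i' := fun h => h0 (by rw [h])
        rw [if_neg h0, if_neg hii, mul_zero]
    · have hii : i ≠ i' := fun h => ht (by rw [h])
      rw [if_neg ht, if_neg hii, zero_mul]
  · -- rows of V
    intro k j j'
    have h1 : ∑ g : GG k, (ε k j * V' k j g) * (ε k j' * V' k j' g) =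
        (∑ g, H k j g * H k j' g) * ((ε k j * ε k j') * ∑ w, f k j w * f k j' w) := by
      rw [Fintype.sum_prod_type, Finset.mul_sum, Finset.sum_mul_sum]
      exact Finset.sum_congr rfl fun g _ => Finset.sum_congr rfl fun w _ => by
        simp only [V']; ring
    rw [h1, H_row]
    by_cases hjj : j = j'
    · subst hjj
      rw [if_pos rfl, if_pos rfl, pm_sq (hε k j), one_mul]
      have : ∑ w : WW, f k j w * f k j w = 4 := by
        rw [Finset.sum_congr rfl fun w _ => pm_sq (hf k j w)]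
        simp [WW]
      rw [this]
    · rw [if_neg hjj, if_neg hjj, zero_mul]
  · -- U against V
    intro k i j
    have h1 : ∑ g : GG k, U k i g * (ε k j * V' k j g) =
        (∑ g, H k (Fin.tail i) g * H k j g) *
          (ε k j * ∑ w, (f k (Fin.tail i) w * chi (i 0) w) * f k j w) := by
      rw [Fintype.sum_prod_type, Finset.mul_sum, Finset.sum_mul_sum]
      exact Finset.sum_congr rfl fun g _ => Finset.sum_congr rfl fun w _ => by
        simp only [U, V']; ring
    rw [h1, H_row]
    by_cases ht : Fin.tail i = j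
    · subst ht
      have h2 : ∑ w, (f k (Fin.tail i) w * chi (i 0) w) * f k (Fin.tail i) w = 0 := by
        rw [← sum_chi (i 0)]
        refine Finset.sum_congr rfl fun w _ => ?_
        have := pm_sq (hf k (Fin.tail i) w)
        calc _ = (f k (Fin.tail i) w * f k (Fin.tail i) w) * chi (i 0) w := by ring
          _ = _ := by rw [this, one_mul]
      rw [h2, mul_zero, mul_zero]
    · rw [if_neg ht, zero_mul]
  · -- difference of the column correlations
    rintro k ⟨g, w⟩ ⟨h, w'⟩
    have h1 : ∑ i, U k i (g, w) * U k i (h, w') =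
        (∑ j, H k j g * H k j h * (f k j w * f k j w')) * ∑ c, chi c w * chi c w' := by
      rw [sum_JJ_succ, Finset.mul_sum]
      refine Finset.sum_congr rfl fun c _ => ?_
      rw [Finset.sum_mul]
      refine Finset.sum_congr rfl fun j _ => ?_
      simp only [U, Fin.tail_cons, Fin.cons_zero]
      ring
    have h2 : ∑ j, (ε k j * V' k j (g, w)) * (ε k j * V' k j (h, w')) =
        ∑ j, H k j g * H k j h * (f k j w * f k j w') := by
      refine Finset.sum_congr rfl fun j _ => ?_
      have := pm_sq (hε k j)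
      calc _ = (ε k j * ε k j) * (V' k j (g, w) * V' k j (h, w')) := by ring
        _ = _ := by rw [this, one_mul]; simp only [V']; ring
    rw [h1, h2]
    set A := ∑ j, H k j g * H k j h * (f k j w * f k j w') with hA
    have h3 : ((2 : ℝ) ^ (k + 1))⁻¹ * (A * ∑ c, chi c w * chi c w') - ((2 : ℝ) ^ k)⁻¹ * A =
        ((2 : ℝ) ^ k)⁻¹ * A * ((∑ c, chi c w * chi c w') / 2 - 1) := by
      rw [pow_succ, mul_inv]; ring
    rw [h3]
    by_cases hw : w = w'
    · subst hw
      have h4 : ∑ c, chi c w * chi c w = 2 := by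
        rw [Finset.sum_congr rfl fun c _ => pm_sq (chi_pm c w)]
        simp
      rw [h4]
      simp only [ne_eq, OfNat.ofNat_ne_zero, not_false_eq_true, div_self, sub_self, mul_zero,
        abs_zero]
      positivity
    · have hAb := hfs k w w' hw g h
      rw [← hA] at hAb
      have h5 : |(∑ c, chi c w * chi c w') / 2 - 1| ≤ 2 := by
        rw [Fintype.sum_bool]
        rcases pm_mul (chi_pm true w) (chi_pm true w') with h | h <;>
          rcases pm_mul (chi_pm false w) (chi_pm false w') with h' | h' <;> rw [h, h'] <;>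
          norm_num
      have h6 : |((2 : ℝ) ^ k)⁻¹ * A| ≤ 17 * (3/4 : ℝ) ^ k := by
        rw [abs_mul, abs_of_pos (by positivity : (0:ℝ) < ((2 : ℝ) ^ k)⁻¹), inv_mul_le_iff₀ (by positivity)]
        linarith
      rw [abs_mul]
      calc _ ≤ 17 * (3/4 : ℝ) ^ k * 2 := mul_le_mul h6 h5 (abs_nonneg _) (by positivity)
        _ = _ := by ring
  · -- cross correlation
    intro k g h
    have h1 := hes k (g, h)
    have h2 : ∑ i, (ε (k + 1) i * V' (k + 1) i g) * U k i h =
        ∑ j, e k j * (V' (k + 1) j g * U k j h) := by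
      rw [hεs]
      exact Finset.sum_congr rfl fun j _ => by ring
    rw [h2, abs_mul, abs_of_pos (by positivity : (0:ℝ) < ((2 : ℝ) ^ (k+1))⁻¹), inv_mul_le_iff₀ (by positivity)]
    refine h1.trans ?_
    have h3 : (3/4 : ℝ) ^ (k + 1) ≤ (3/4 : ℝ) ^ k := pow_le_pow_of_le_one (by norm_num) (by norm_num) (Nat.le_succ k)
    have h4 : (0 : ℝ) < 2 ^ (k + 1) := by positivity
    nlinarith [pow_pos (show (0:ℝ) < 3/4 by norm_num) k]

end Pool.Agent.Lib_helper7.Davie
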