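import Mathlib
import Pool.Agent.Lib_helper7.Davie.Matrices

set_option autoImplicit false

open Finset Filter Topology
open scoped ENNReal

universe u

namespace Pool.Agent.Lib_helper7.Davie

/-- the coordinates -/
abbrev Idx : Type u := ULift.{u} (Σ k, GG k)

/-- the ambient space `ℓ_∞` over the index set -/
abbrev EE (𝕜 : Type) [RCLike 𝕜] : Type u := lp (fun _ : Idx.{u} => 𝕜) ∞

variable (𝕜 : Type) [RCLike 𝕜]

/-- a function on the `k`-th block, extended by zero -/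
noncomputable def lev (k : ℕ) (f : GG k → ℝ) : EE.{u} 𝕜 :=
  ∑ g, lp.single (E := fun _ : Idx.{u} => 𝕜) ∞ ⟨⟨k, g⟩⟩ ((f g : ℝ) : 𝕜)

theorem lev_same (k : ℕ) (f : GG k → ℝ) (h : GG k) :
    (lev 𝕜 k f : Idx.{u} → 𝕜) ⟨⟨k, h⟩⟩ = (f h : ℝ) := by
  unfold lev
  rw [lp.coeFn_sum, Finset.sum_apply, Finset.sum_eq_single h]
  · rw [lp.single_apply, Pi.single_eq_same]
  · intro g _ hg
    rw [lp.single_apply_ne]
    intro heq
    apply hg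
    have := congrArg ULift.down heq
    simpa using (Sigma.mk.inj_iff.1 this).2.symm
  · intro h'; exact absurd (Finset.mem_univ _) h'

theorem lev_ne {k l : ℕ} (hkl : l ≠ k) (f : GG k → ℝ) (h : GG l) :
    (lev 𝕜 k f : Idx.{u} → 𝕜) ⟨⟨l, h⟩⟩ = 0 := by
  unfold lev
  rw [lp.coeFn_sum, Finset.sum_apply]
  refine Finset.sum_eq_zero fun g _ => ?_
  rw [lp.single_apply_ne]
  intro heq
  exact hkl (congrArg (fun p : Idx.{u} => p.down.1) heq)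

/-- evaluation at a coordinate -/
noncomputable def ev (p : Idx.{u}) : EE.{u} 𝕜 →L[𝕜] 𝕜 :=
  lp.evalCLM 𝕜 (fun _ : Idx.{u} => 𝕜) ∞ p

theorem ev_apply (p : Idx.{u}) (f : EE.{u} 𝕜) : ev 𝕜 p f = f p := rfl

theorem norm_ev_le (p : Idx.{u}) : ‖(ev 𝕜 p : EE.{u} 𝕜 →L[𝕜] 𝕜)‖ ≤ 1 := by
  refine ContinuousLinearMap.opNorm_le_bound _ zero_le_one fun f => ?_
  rw [ev_apply, one_mul]
  exact lp.norm_apply_le_norm ENNReal.top_ne_zero f p

/-- normalised pairing against a function on the `k`-th block -/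
noncomputable def al (k : ℕ) (f : GG k → ℝ) : EE.{u} 𝕜 →L[𝕜] 𝕜 :=
  (((2 : 𝕜) ^ k * 4)⁻¹) • ∑ g, ((f g : ℝ) : 𝕜) • ev 𝕜 ⟨⟨k, g⟩⟩

theorem al_apply (k : ℕ) (f : GG k → ℝ) (x : EE.{u} 𝕜) :
    al 𝕜 k f x = ((2 : 𝕜) ^ k * 4)⁻¹ * ∑ g, ((f g : ℝ) : 𝕜) * x ⟨⟨k, g⟩⟩ := by
  simp [al, ev_apply]

theorem al_lev_same (k : ℕ) (f f' : GG k → ℝ) :
    al 𝕜 k f (lev 𝕜 k f' : EE.{u} 𝕜) = (((2 : ℝ) ^ k * 4)⁻¹ * ∑ g, f g * f' g : ℝ) := by
  rw [al_apply]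
  push_cast
  congr 1
  exact Finset.sum_congr rfl fun g _ => by rw [lev_same]

theorem al_lev_ne {k l : ℕ} (hkl : k ≠ l) (f : GG k → ℝ) (f' : GG l → ℝ) :
    al 𝕜 k f (lev 𝕜 l f' : EE.{u} 𝕜) = 0 := by
  rw [al_apply, Finset.sum_eq_zero, mul_zero]
  intro g _
  rw [lev_ne 𝕜 hkl, mul_zero]

theorem norm_al_le (k : ℕ) (f : GG k → ℝ) (hf : ∀ g, |f g| ≤ 1) (x : EE.{u} 𝕜) (C : ℝ)
    (hC : ∀ g, ‖x ⟨⟨k, g⟩⟩‖ ≤ C) : ‖al 𝕜 k f x‖ ≤ C := by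
  rw [al_apply, norm_mul, norm_inv, norm_mul, norm_pow, RCLike.norm_ofNat, RCLike.norm_ofNat,
    inv_mul_le_iff₀ (by positivity)]
  calc ‖∑ g, ((f g : ℝ) : 𝕜) * x ⟨⟨k, g⟩⟩‖ ≤ ∑ g, ‖((f g : ℝ) : 𝕜) * x ⟨⟨k, g⟩⟩‖ :=
        norm_sum_le _ _
    _ ≤ ∑ _g : GG k, C := by
        refine Finset.sum_le_sum fun g _ => ?_
        rw [norm_mul, RCLike.norm_ofReal]
        calc |f g| * ‖x ⟨⟨k, g⟩⟩‖ ≤ 1 * ‖x ⟨⟨k, g⟩⟩‖ :=
              mul_le_mul_of_nonneg_right (hf g) (norm_nonneg _)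
          _ ≤ C := by rw [one_mul]; exact hC g
    _ = 2 ^ k * 4 * C := by
        rw [Finset.sum_const, Finset.card_univ, card_GG, nsmul_eq_mul]
        push_cast
        ring

/-- The data of the construction: matrices as in `exists_matrices`. -/
structure Mats where
  U : ∀ k, JJ (k + 1) → GG k → ℝ
  V : ∀ k, JJ k → GG k → ℝ
  hU : ∀ k i g, U k i g = 1 ∨ U k i g = -1
  hV : ∀ k j g, V k j g = 1 ∨ V k j g = -1
  hUU : ∀ k i i', ∑ g, U k i g * U k i' g = if i = i' then (2 : ℝ) ^ k * 4 else 0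
  hVV : ∀ k j j', ∑ g, V k j g * V k j' g = if j = j' then (2 : ℝ) ^ k * 4 else 0
  hUV : ∀ k i j, ∑ g, U k i g * V k j g = 0
  hdiff : ∀ k g h, |((2 : ℝ) ^ (k + 1))⁻¹ * ∑ i, U k i g * U k i h
          - ((2 : ℝ) ^ k)⁻¹ * ∑ j, V k j g * V k j h| ≤ 34 * (3/4 : ℝ) ^ k
  hcross : ∀ k g h, |((2 : ℝ) ^ (k + 1))⁻¹ * ∑ i, V (k + 1) i g * U k i h| ≤ 34 * (3/4 : ℝ) ^ k

theorem nonempty_mats : Nonempty Mats := by
  obtain ⟨U, V, h1, h2, h3, h4, h5, h6, h7⟩ := exists_matrices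
  exact ⟨⟨U, V, h1, h2, h3, h4, h5, h6, h7⟩⟩

variable (M : Mats)

/-- the basis vectors -/
noncomputable def ee : ∀ k, JJ k → EE.{u} 𝕜
  | 0, j => lev 𝕜 0 (M.V 0 j)
  | k + 1, i => lev 𝕜 k (M.U k i) + lev 𝕜 (k + 1) (M.V (k + 1) i)

theorem ee_same (k : ℕ) (j : JJ k) (h : GG k) :
    (ee 𝕜 M k j : Idx.{u} → 𝕜) ⟨⟨k, h⟩⟩ = (M.V k j h : ℝ) := by
  cases k with
  | zero => exact lev_same 𝕜 0 _ h
  | succ k =>
    unfold ee
    rw [lp.coeFn_add, Pi.add_apply, lev_same, lev_ne 𝕜 (Nat.succ_ne_self k), zero_add]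

theorem ee_pred (k : ℕ) (i : JJ (k + 1)) (h : GG k) :
    (ee 𝕜 M (k + 1) i : Idx.{u} → 𝕜) ⟨⟨k, h⟩⟩ = (M.U k i h : ℝ) := by
  unfold ee
  rw [lp.coeFn_add, Pi.add_apply, lev_same, lev_ne 𝕜 (Nat.succ_ne_self k).symm, add_zero]

theorem ee_ne {k l : ℕ} (j : JJ k) (h : GG l) (h1 : l ≠ k) (h2 : l + 1 ≠ k) :
    (ee 𝕜 M k j : Idx.{u} → 𝕜) ⟨⟨l, h⟩⟩ = 0 := by
  cases k with
  | zero => exact lev_ne 𝕜 h1 _ h
  | succ k =>
    unfold ee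
    rw [lp.coeFn_add, Pi.add_apply, lev_ne 𝕜 h1, lev_ne 𝕜 (fun h => h2 (by rw [h])), add_zero]

/-- the space without the approximation property -/
noncomputable def XX : Submodule 𝕜 (EE.{u} 𝕜) :=
  (Submodule.span 𝕜 (Set.range fun p : (Σ k, JJ k) => ee 𝕜 M p.1 p.2)).topologicalClosure

theorem ee_mem (k : ℕ) (j : JJ k) : ee.{u} 𝕜 M k j ∈ XX.{u} 𝕜 M :=
  Submodule.le_topologicalClosure _ (Submodule.subset_span ⟨⟨k, j⟩, rfl⟩)

instance : CompleteSpace (XX.{u} 𝕜 M) := by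
  unfold XX
  infer_instance

/-- basis vectors, as elements of `XX` -/
noncomputable def ex (k : ℕ) (j : JJ k) : XX.{u} 𝕜 M := ⟨ee 𝕜 M k j, ee_mem 𝕜 M k j⟩

/-- closed-span induction -/
theorem XX_induction {P : EE.{u} 𝕜 → Prop} (hadd : ∀ x y, P x → P y → P (x + y))
    (hsmul : ∀ (c : 𝕜) x, P x → P (c • x)) (h0 : P 0) (hcl : IsClosed {x | P x})
    (he : ∀ k j, P (ee 𝕜 M k j)) : ∀ x ∈ XX.{u} 𝕜 M, P x := by
  let S : Submodule 𝕜 (EE.{u} 𝕜) :=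
    { carrier := {x | P x}
      add_mem' := fun {a b} ha hb => hadd a b ha hb
      zero_mem' := h0
      smul_mem' := fun c x hx => hsmul c x hx }
  have hS : IsClosed (S : Set (EE.{u} 𝕜)) := hcl
  have : XX.{u} 𝕜 M ≤ S := by
    refine Submodule.topologicalClosure_minimal _ ?_ hS
    rw [Submodule.span_le]
    rintro _ ⟨⟨k, j⟩, rfl⟩
    exact he k j
  exact fun x hx => this hx

theorem al_U_eq_al_V (k : ℕ) (i : JJ (k + 1)) (x : EE.{u} 𝕜) (hx : x ∈ XX.{u} 𝕜 M) :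
    al 𝕜 k (M.U k i) x = al 𝕜 (k + 1) (M.V (k + 1) i) x := by
  refine XX_induction 𝕜 M (P := fun x => al 𝕜 k (M.U k i) x = al 𝕜 (k + 1) (M.V (k + 1) i) x)
    ?_ ?_ ?_ ?_ ?_ x hx
  · intro x y hx hy
    rw [map_add, map_add, hx, hy]
  · intro c x hx
    rw [map_smul, map_smul, hx]
  · rw [map_zero, map_zero]
  · exact isClosed_eq (al 𝕜 k (M.U k i)).continuous (al 𝕜 (k + 1) (M.V (k + 1) i)).continuous
  · intro l j
    cases l with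
    | zero =>
      unfold ee
      rw [al_lev_ne 𝕜 (Nat.succ_ne_zero k)]
      by_cases hk : k = 0
      · subst hk
        rw [al_lev_same, M.hUV, mul_zero]; simp
      · rw [al_lev_ne 𝕜 hk]
    | succ m =>
      unfold ee
      rw [map_add, map_add]
      by_cases hkm : k = m
      · subst hkm
        rw [al_lev_same, al_lev_same, al_lev_ne 𝕜 (Nat.succ_ne_self k).symm,
          al_lev_ne 𝕜 (Nat.succ_ne_self k), M.hUU, M.hVV, add_zero, zero_add]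
        split_ifs
        · have h1 : ((2 : ℝ) ^ k * 4)⁻¹ * (2 ^ k * 4) = 1 := inv_mul_cancel₀ (by positivity)
          have h2 : ((2 : ℝ) ^ (k + 1) * 4)⁻¹ * (2 ^ (k + 1) * 4) = 1 :=
            inv_mul_cancel₀ (by positivity)
          rw [h1, h2]
        · simp
      · have e1 : al 𝕜 k (M.U k i) (lev 𝕜 m (M.U m j) : EE.{u} 𝕜) = 0 := al_lev_ne 𝕜 hkm _ _
        have e2 : al 𝕜 k (M.U k i) (lev 𝕜 (m + 1) (M.V (m + 1) j) : EE.{u} 𝕜) = 0 := by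
          by_cases h : k = m + 1
          · subst h; rw [al_lev_same, M.hUV, mul_zero]; simp
          · exact al_lev_ne 𝕜 h _ _
        have e3 : al 𝕜 (k + 1) (M.V (k + 1) i) (lev 𝕜 m (M.U m j) : EE.{u} 𝕜) = 0 := by
          by_cases h : k + 1 = m
          · subst h
            rw [al_lev_same]
            have : ∑ g, M.V (k + 1) i g * M.U (k + 1) j g = 0 := by
              rw [← M.hUV (k + 1) j i]
              exact Finset.sum_congr rfl fun g _ => mul_comm _ _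
            rw [this, mul_zero]; simp
          · exact al_lev_ne 𝕜 h _ _
        have e4 : al 𝕜 (k + 1) (M.V (k + 1) i) (lev 𝕜 (m + 1) (M.V (m + 1) j) : EE.{u} 𝕜) = 0 :=
          al_lev_ne 𝕜 (fun h => hkm (Nat.succ_injective h)) _ _
        rw [e1, e2, e3, e4]

theorem al_V_ee (k : ℕ) (j : JJ k) : al 𝕜 k (M.V k j) (ee.{u} 𝕜 M k j) = 1 := by
  have h1 : ((2 : ℝ) ^ k * 4)⁻¹ * (2 ^ k * 4) = 1 := inv_mul_cancel₀ (by positivity)
  rw [al_apply]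
  have h2 : ∑ g, ((M.V k j g : ℝ) : 𝕜) * (ee.{u} 𝕜 M k j : Idx.{u} → 𝕜) ⟨⟨k, g⟩⟩ =
      ((∑ g, M.V k j g * M.V k j g : ℝ) : 𝕜) := by
    push_cast
    exact Finset.sum_congr rfl fun g _ => by rw [ee_same]
  rw [h2, M.hVV, if_pos rfl]
  have h3 : ((2 : 𝕜) ^ k * 4)⁻¹ = ((((2 : ℝ) ^ k * 4)⁻¹ : ℝ) : 𝕜) := by push_cast; rfl
  rw [h3, ← RCLike.ofReal_mul, h1, RCLike.ofReal_one]

/-- coordinates of the elements of `XX` tend to zero along the blocks -/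
theorem tail_tendsto (x : EE.{u} 𝕜) (hx : x ∈ XX.{u} 𝕜 M) :
    ∀ ε > 0, ∃ N, ∀ n ≥ N, ∀ g : GG n, ‖x ⟨⟨n, g⟩⟩‖ ≤ ε := by
  refine XX_induction 𝕜 M (P := fun x => ∀ ε > 0, ∃ N, ∀ n ≥ N, ∀ g : GG n, ‖x ⟨⟨n, g⟩⟩‖ ≤ ε)
    ?_ ?_ ?_ ?_ ?_ x hx
  · intro x y hx hy ε hε
    obtain ⟨N1, h1⟩ := hx (ε / 2) (by positivity)
    obtain ⟨N2, h2⟩ := hy (ε / 2) (by positivity)
    refine ⟨max N1 N2, fun n hn g => ?_⟩
    rw [lp.coeFn_add, Pi.add_apply]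
    calc _ ≤ _ := norm_add_le _ _
      _ ≤ ε / 2 + ε / 2 := add_le_add (h1 n (le_of_max_le_left hn) g) (h2 n (le_of_max_le_right hn) g)
      _ = ε := add_halves ε
  · intro c x hx ε hε
    obtain ⟨N1, h1⟩ := hx (ε / (‖c‖ + 1)) (by positivity)
    refine ⟨N1, fun n hn g => ?_⟩
    rw [lp.coeFn_smul, Pi.smul_apply, norm_smul]
    have := h1 n hn g
    calc ‖c‖ * ‖x ⟨⟨n, g⟩⟩‖ ≤ (‖c‖ + 1) * (ε / (‖c‖ + 1)) := by
          apply mul_le_mul (by linarith) this (norm_nonneg _) (by positivity)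
      _ = ε := by field_simp
  · intro ε hε
    exact ⟨0, fun n _ g => by simpa using hε.le⟩
  · rw [← isOpen_compl_iff, Metric.isOpen_iff]
    intro x hx
    simp only [Set.mem_compl_iff, Set.mem_ofPred_eq, not_forall, not_exists] at hx
    obtain ⟨ε, hε, hx⟩ := hx
    refine ⟨ε / 2, by positivity, fun y hy => ?_⟩
    simp only [Set.mem_compl_iff, Set.mem_ofPred_eq, not_forall, not_exists]
    refine ⟨ε / 2, by positivity, fun N => ?_⟩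
    obtain ⟨n, hn, g, hg⟩ := hx N
    refine ⟨n, hn, g, ?_⟩
    rw [not_le] at hg ⊢
    have h1 : ‖x ⟨⟨n, g⟩⟩ - y ⟨⟨n, g⟩⟩‖ ≤ ‖x - y‖ := by
      have := lp.norm_apply_le_norm ENNReal.top_ne_zero (x - y) (⟨⟨n, g⟩⟩ : Idx.{u})
      rwa [lp.coeFn_sub, Pi.sub_apply] at this
    have h2 : ‖x - y‖ < ε / 2 := by
      rw [Metric.mem_ball, dist_comm, dist_eq_norm] at hy
      exact hy
    have h3 := norm_sub_norm_le (x ⟨⟨n, g⟩⟩) (y ⟨⟨n, g⟩⟩)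
    linarith
  · intro k j ε hε
    refine ⟨k + 1, fun n hn g => ?_⟩
    rw [ee_ne 𝕜 M j g (by omega) (by omega), norm_zero]
    exact hε.le

end Pool.Agent.Lib_helper7.Davie
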