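import Mathlib
import Pool.Agent.Lib_helper7.Davie.Space

set_option autoImplicit false

open Finset Filter Topology
open scoped ENNReal

universe u

namespace Pool.Agent.Lib_helper7.Davie

variable (𝕜 : Type) [RCLike 𝕜] (M : Mats)

/-- the vectors `Φ_g^k` -/
noncomputable def Ph (k : ℕ) (g : GG k) : XX.{u} 𝕜 M :=
  ((2 : 𝕜) ^ (k + 1))⁻¹ • ∑ i, ((M.U k i g : ℝ) : 𝕜) • ex 𝕜 M (k + 1) i
    - ((2 : 𝕜) ^ k)⁻¹ • ∑ j, ((M.V k j g : ℝ) : 𝕜) • ex 𝕜 M k j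

theorem map_comb {X : Type u} [NormedAddCommGroup X] [NormedSpace 𝕜 X] (φ : X →L[𝕜] 𝕜)
    {I J : Type} [Fintype I] [Fintype J] (a b : 𝕜) (c : I → 𝕜) (d : J → 𝕜) (x : I → X)
    (y : J → X) : φ (a • ∑ i, c i • x i - b • ∑ j, d j • y j) =
      a * ∑ i, c i * φ (x i) - b * ∑ j, d j * φ (y j) := by
  rw [map_sub, map_smul, map_smul, map_sum, map_sum]
  simp only [map_smul, smul_eq_mul]

theorem Ph_apply (k : ℕ) (g : GG k) (p : Idx.{u}) :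
    ((Ph 𝕜 M k g : XX.{u} 𝕜 M) : EE.{u} 𝕜) p =
      ((2 : 𝕜) ^ (k + 1))⁻¹ * ∑ i, ((M.U k i g : ℝ) : 𝕜) * (ee.{u} 𝕜 M (k + 1) i : Idx.{u} → 𝕜) p
      - ((2 : 𝕜) ^ k)⁻¹ * ∑ j, ((M.V k j g : ℝ) : 𝕜) * (ee.{u} 𝕜 M k j : Idx.{u} → 𝕜) p := by
  have h1 : ∀ (x : XX.{u} 𝕜 M), (x : EE.{u} 𝕜) p = (ev 𝕜 p ∘L (XX.{u} 𝕜 M).subtypeL) x :=
    fun _ => rfl
  rw [h1, Ph, map_comb]
  rfl

theorem norm_Ph_le (k : ℕ) (g : GG k) : ‖Ph.{u} 𝕜 M k g‖ ≤ 46 * (3/4 : ℝ) ^ k := by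
  have hpos : (0 : ℝ) < (3/4 : ℝ) ^ k := by positivity
  change ‖((Ph 𝕜 M k g : XX.{u} 𝕜 M) : EE.{u} 𝕜)‖ ≤ _
  refine lp.norm_le_of_forall_le (by positivity) ?_
  rintro ⟨⟨l, h⟩⟩
  rw [Ph_apply]
  by_cases h1 : l = k
  · subst h1
    have e1 : ((2 : 𝕜) ^ (l + 1))⁻¹ * ∑ i, ((M.U l i g : ℝ) : 𝕜) *
          (ee.{u} 𝕜 M (l + 1) i : Idx.{u} → 𝕜) ⟨⟨l, h⟩⟩
        - ((2 : 𝕜) ^ l)⁻¹ * ∑ j, ((M.V l j g : ℝ) : 𝕜) * (ee.{u} 𝕜 M l j : Idx.{u} → 𝕜) ⟨⟨l, h⟩⟩ =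
        ((((2 : ℝ) ^ (l + 1))⁻¹ * ∑ i, M.U l i g * M.U l i h
          - ((2 : ℝ) ^ l)⁻¹ * ∑ j, M.V l j g * M.V l j h : ℝ) : 𝕜) := by
      push_cast
      congr 2
      · exact Finset.sum_congr rfl fun i _ => by rw [ee_pred]
      · exact Finset.sum_congr rfl fun i _ => by rw [ee_same]
    rw [e1, RCLike.norm_ofReal]
    exact (M.hdiff l g h).trans (by linarith)
  by_cases h2 : l = k + 1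
  · subst h2
    have e1 : ((2 : 𝕜) ^ (k + 1))⁻¹ * ∑ i, ((M.U k i g : ℝ) : 𝕜) *
          (ee.{u} 𝕜 M (k + 1) i : Idx.{u} → 𝕜) ⟨⟨k + 1, h⟩⟩
        - ((2 : 𝕜) ^ k)⁻¹ * ∑ j, ((M.V k j g : ℝ) : 𝕜) *
          (ee.{u} 𝕜 M k j : Idx.{u} → 𝕜) ⟨⟨k + 1, h⟩⟩ =
        ((((2 : ℝ) ^ (k + 1))⁻¹ * ∑ i, M.V (k + 1) i h * M.U k i g : ℝ) : 𝕜) := by
      have e2 : ∑ j, ((M.V k j g : ℝ) : 𝕜) * (ee.{u} 𝕜 M k j : Idx.{u} → 𝕜) ⟨⟨k + 1, h⟩⟩ = 0 := by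
        refine Finset.sum_eq_zero fun j _ => ?_
        rw [ee_ne 𝕜 M j h (by omega) (by omega), mul_zero]
      rw [e2, mul_zero, sub_zero]
      push_cast
      congr 1
      exact Finset.sum_congr rfl fun i _ => by rw [ee_same, mul_comm]
    rw [e1, RCLike.norm_ofReal]
    exact (M.hcross k h g).trans (by linarith)
  by_cases h3 : l + 1 = k
  · subst h3
    have e1 : ((2 : 𝕜) ^ (l + 1 + 1))⁻¹ * ∑ i, ((M.U (l + 1) i g : ℝ) : 𝕜) *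
          (ee.{u} 𝕜 M (l + 1 + 1) i : Idx.{u} → 𝕜) ⟨⟨l, h⟩⟩
        - ((2 : 𝕜) ^ (l + 1))⁻¹ * ∑ j, ((M.V (l + 1) j g : ℝ) : 𝕜) *
          (ee.{u} 𝕜 M (l + 1) j : Idx.{u} → 𝕜) ⟨⟨l, h⟩⟩ =
        -((((2 : ℝ) ^ (l + 1))⁻¹ * ∑ i, M.V (l + 1) i g * M.U l i h : ℝ) : 𝕜) := by
      have e2 : ∑ j, ((M.U (l + 1) j g : ℝ) : 𝕜) *
          (ee.{u} 𝕜 M (l + 1 + 1) j : Idx.{u} → 𝕜) ⟨⟨l, h⟩⟩ = 0 := by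
        refine Finset.sum_eq_zero fun j _ => ?_
        rw [ee_ne 𝕜 M j h (by omega) (by omega), mul_zero]
      rw [e2, mul_zero, zero_sub]
      push_cast
      congr 2
      exact Finset.sum_congr rfl fun i _ => by rw [ee_pred]
    rw [e1, norm_neg, RCLike.norm_ofReal]
    refine (M.hcross l g h).trans ?_
    have h4 : (3/4 : ℝ) ^ (l + 1) = (3/4 : ℝ) ^ l * (3/4) := pow_succ _ _
    rw [h4]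
    have : (0 : ℝ) < (3/4 : ℝ) ^ l := by positivity
    linarith
  · have e1 : ∑ i, ((M.U k i g : ℝ) : 𝕜) * (ee.{u} 𝕜 M (k + 1) i : Idx.{u} → 𝕜) ⟨⟨l, h⟩⟩ = 0 := by
      refine Finset.sum_eq_zero fun j _ => ?_
      rw [ee_ne 𝕜 M j h (by omega) (by omega), mul_zero]
    have e2 : ∑ j, ((M.V k j g : ℝ) : 𝕜) * (ee.{u} 𝕜 M k j : Idx.{u} → 𝕜) ⟨⟨l, h⟩⟩ = 0 := by
      refine Finset.sum_eq_zero fun j _ => ?_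
      rw [ee_ne 𝕜 M j h (by omega) (by omega), mul_zero]
    rw [e1, e2]
    simp
    positivity

/-- `β_n(T)` -/
noncomputable def be (n : ℕ) (T : XX.{u} 𝕜 M →L[𝕜] XX.{u} 𝕜 M) : 𝕜 :=
  ((2 : 𝕜) ^ n)⁻¹ * ∑ j, al 𝕜 n (M.V n j) (T (ex 𝕜 M n j) : EE.{u} 𝕜)

theorem be_one (n : ℕ) : be.{u} 𝕜 M n (ContinuousLinearMap.id 𝕜 _) = 1 := by
  unfold be
  have : ∀ j, al 𝕜 n (M.V n j) ((ContinuousLinearMap.id 𝕜 (XX.{u} 𝕜 M) (ex 𝕜 M n j) :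
      XX.{u} 𝕜 M) : EE.{u} 𝕜) = 1 := fun j => al_V_ee 𝕜 M n j
  simp only [this]
  rw [Finset.sum_const, Finset.card_univ, card_JJ, nsmul_eq_mul, mul_one]
  push_cast
  exact inv_mul_cancel₀ (pow_ne_zero _ two_ne_zero)

theorem be_succ_sub (k : ℕ) (T : XX.{u} 𝕜 M →L[𝕜] XX.{u} 𝕜 M) :
    be 𝕜 M (k + 1) T - be 𝕜 M k T =
      ∑ g, ((2 : 𝕜) ^ k * 4)⁻¹ * ev 𝕜 ⟨⟨k, g⟩⟩ (T (Ph 𝕜 M k g) : EE.{u} 𝕜) := by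
  have h1 : be 𝕜 M (k + 1) T = ((2 : 𝕜) ^ (k + 1))⁻¹ *
      ∑ i, al 𝕜 k (M.U k i) (T (ex 𝕜 M (k + 1) i) : EE.{u} 𝕜) := by
    unfold be
    congr 1
    exact Finset.sum_congr rfl fun i _ => (al_U_eq_al_V 𝕜 M k i _ (T (ex 𝕜 M (k + 1) i)).2).symm
  have h2 : ∀ g, ev 𝕜 ⟨⟨k, g⟩⟩ (T (Ph 𝕜 M k g) : EE.{u} 𝕜) =
      ((2 : 𝕜) ^ (k + 1))⁻¹ * ∑ i, ((M.U k i g : ℝ) : 𝕜) *
        (T (ex 𝕜 M (k + 1) i) : EE.{u} 𝕜) ⟨⟨k, g⟩⟩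
      - ((2 : 𝕜) ^ k)⁻¹ * ∑ j, ((M.V k j g : ℝ) : 𝕜) * (T (ex 𝕜 M k j) : EE.{u} 𝕜) ⟨⟨k, g⟩⟩ := by
    intro g
    have h3 : ∀ (x : XX.{u} 𝕜 M), ev 𝕜 ⟨⟨k, g⟩⟩ ((T x : XX.{u} 𝕜 M) : EE.{u} 𝕜) =
      (ev 𝕜 ⟨⟨k, g⟩⟩ ∘L (XX.{u} 𝕜 M).subtypeL ∘L T) x := fun _ => rfl
    rw [h3, Ph, map_comb]
    rfl
  simp only [h2]
  rw [h1]
  unfold be
  simp only [al_apply]
  rw [← Finset.mul_sum, ← Finset.mul_sum, ← Finset.mul_sum, Finset.sum_sub_distrib,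
    ← Finset.mul_sum, ← Finset.mul_sum, Finset.sum_comm]
  rw [Finset.sum_comm (γ := JJ k)]
  ring

end Pool.Agent.Lib_helper7.Davie
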