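import Mathlib
import Pool.Agent.Lib_helper7.Davie.Phi

set_option autoImplicit false

open Finset Filter Topology
open scoped ENNReal

universe u

namespace Pool.Agent.Lib_helper7.Davie

variable (𝕜 : Type) [RCLike 𝕜] (M : Mats)

theorem norm_ee_le (k : ℕ) (j : JJ k) : ‖ee.{u} 𝕜 M k j‖ ≤ 1 := by
  refine lp.norm_le_of_forall_le zero_le_one ?_
  rintro ⟨⟨l, h⟩⟩
  by_cases h1 : l = k
  · subst h1
    rw [ee_same, RCLike.norm_ofReal, pm_abs (M.hV _ _ _)]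
  by_cases h2 : l + 1 = k
  · subst h2
    rw [ee_pred, RCLike.norm_ofReal, pm_abs (M.hU _ _ _)]
  · rw [ee_ne 𝕜 M j h h1 h2, norm_zero]
    exact zero_le_one

theorem be_tendsto_zero (S : XX.{u} 𝕜 M →L[𝕜] XX.{u} 𝕜 M)
    (hS : FiniteDimensional 𝕜 (LinearMap.range (S : XX.{u} 𝕜 M →ₗ[𝕜] XX.{u} 𝕜 M))) :
    Tendsto (fun n => be 𝕜 M n S) atTop (𝓝 0) := by
  set R := LinearMap.range (S : XX.{u} 𝕜 M →ₗ[𝕜] XX.{u} 𝕜 M) with hR
  let bas := Module.finBasis 𝕜 R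
  let Sr : XX.{u} 𝕜 M →L[𝕜] R := S.codRestrict R (fun x => LinearMap.mem_range_self _ x)
  let c : Fin (Module.finrank 𝕜 R) → (XX.{u} 𝕜 M →L[𝕜] 𝕜) := fun i =>
    (LinearMap.toContinuousLinearMap (bas.coord i)) ∘L Sr
  have hexp : ∀ x : XX.{u} 𝕜 M, S x = ∑ i, c i x • ((bas i : R) : XX.{u} 𝕜 M) := by
    intro x
    have h1 := bas.sum_repr (Sr x)
    have h2 : S x = ((Sr x : R) : XX.{u} 𝕜 M) := rfl
    rw [h2, ← h1, Submodule.coe_sum]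
    refine Finset.sum_congr rfl fun i _ => ?_
    rw [Submodule.coe_smul]
    rfl
  have hcoord : ∀ (x : XX.{u} 𝕜 M) (p : Idx.{u}), ((S x : XX.{u} 𝕜 M) : EE.{u} 𝕜) p =
      ∑ i, c i x * (((bas i : R) : XX.{u} 𝕜 M) : EE.{u} 𝕜) p := by
    intro x p
    have h1 : ∀ z : XX.{u} 𝕜 M, (z : EE.{u} 𝕜) p = ((ev 𝕜 p) ∘L (XX.{u} 𝕜 M).subtypeL) z :=
      fun _ => rfl
    rw [h1, hexp x, map_sum]
    refine Finset.sum_congr rfl fun i _ => ?_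
    rw [map_smul, smul_eq_mul]
    rfl
  rw [Metric.tendsto_atTop]
  intro ε hε
  have hC : ∀ i, ∃ N, ∀ n ≥ N, ∀ g : GG n, ‖c i‖ * ‖(((bas i : R) : XX.{u} 𝕜 M) : EE.{u} 𝕜) ⟨⟨n, g⟩⟩‖
      ≤ ε / 2 / (Module.finrank 𝕜 R + 1) := by
    intro i
    obtain ⟨N, hN⟩ := tail_tendsto 𝕜 M (((bas i : R) : XX.{u} 𝕜 M) : EE.{u} 𝕜)
      ((bas i : R) : XX.{u} 𝕜 M).2 (ε / 2 / (Module.finrank 𝕜 R + 1) / (‖c i‖ + 1)) (by positivity)
    refine ⟨N, fun n hn g => ?_⟩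
    calc _ ≤ (‖c i‖ + 1) * (ε / 2 / (Module.finrank 𝕜 R + 1) / (‖c i‖ + 1)) := by
          apply mul_le_mul (by linarith) (hN n hn g) (norm_nonneg _) (by positivity)
      _ = _ := by
        have : ‖c i‖ + 1 ≠ 0 := by positivity
        field_simp
  choose N hN using hC
  refine ⟨∑ i, N i, fun n hn => ?_⟩
  rw [dist_zero_right]
  have hb : ∀ (x : XX.{u} 𝕜 M), ‖x‖ ≤ 1 → ∀ g : GG n,
      ‖((S x : XX.{u} 𝕜 M) : EE.{u} 𝕜) ⟨⟨n, g⟩⟩‖ ≤ ε / 2 := by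
    intro x hx g
    rw [hcoord]
    calc _ ≤ ∑ i, ‖c i x * (((bas i : R) : XX.{u} 𝕜 M) : EE.{u} 𝕜) ⟨⟨n, g⟩⟩‖ := norm_sum_le _ _
      _ ≤ ∑ _i : Fin (Module.finrank 𝕜 R), ε / 2 / (Module.finrank 𝕜 R + 1) := by
          refine Finset.sum_le_sum fun i _ => ?_
          rw [norm_mul]
          have h1 : ‖c i x‖ ≤ ‖c i‖ := by
            calc _ ≤ ‖c i‖ * ‖x‖ := (c i).le_opNorm x
              _ ≤ ‖c i‖ * 1 := mul_le_mul_of_nonneg_left hx (c i).opNorm_nonneg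
              _ = _ := mul_one _
          refine (mul_le_mul_of_nonneg_right h1 (norm_nonneg _)).trans (hN i n ?_ g)
          exact (Finset.single_le_sum (f := N) (fun _ _ => Nat.zero_le _) (Finset.mem_univ i)).trans hn
      _ = (Module.finrank 𝕜 R : ℝ) * (ε / 2 / (Module.finrank 𝕜 R + 1)) := by
          rw [Finset.sum_const, Finset.card_univ, Fintype.card_fin, nsmul_eq_mul]
      _ ≤ ε / 2 := by
          rw [mul_div_assoc', div_le_iff₀ (by positivity)]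
          nlinarith
  have h2 : ‖be 𝕜 M n S‖ ≤ ε / 2 := by
    unfold be
    rw [norm_mul, norm_inv, norm_pow, RCLike.norm_ofNat, inv_mul_le_iff₀ (by positivity)]
    calc _ ≤ ∑ j, ‖al 𝕜 n (M.V n j) (S (ex 𝕜 M n j) : EE.{u} 𝕜)‖ := norm_sum_le _ _
      _ ≤ ∑ _j : JJ n, ε / 2 := by
          refine Finset.sum_le_sum fun j _ => ?_
          refine norm_al_le 𝕜 n _ (fun g => (pm_abs (M.hV n j g)).le) _ _ fun g => ?_
          exact hb _ (norm_ee_le 𝕜 M n j) g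
      _ = _ := by
          rw [Finset.sum_const, Finset.card_univ, card_JJ, nsmul_eq_mul]
          push_cast
          ring
  linarith

/-- the summands of the trace-type functional -/
theorem hasSum_Ph (T : XX.{u} 𝕜 M →L[𝕜] XX.{u} 𝕜 M) (L : 𝕜)
    (hL : Tendsto (fun n => be 𝕜 M n T) atTop (𝓝 L)) :
    HasSum (fun p : (Σ k, GG k) => ((2 : 𝕜) ^ p.1 * 4)⁻¹ * ev 𝕜 ⟨p⟩ (T (Ph 𝕜 M p.1 p.2) : EE.{u} 𝕜))
      (L - be 𝕜 M 0 T) := by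
  have hbound : ∀ p : (Σ k, GG k), ‖((2 : 𝕜) ^ p.1 * 4)⁻¹ *
      ev 𝕜 ⟨p⟩ (T (Ph 𝕜 M p.1 p.2) : EE.{u} 𝕜)‖ ≤
      ((2 : ℝ) ^ p.1 * 4)⁻¹ * (‖T‖ * (46 * (3/4 : ℝ) ^ p.1)) := by
    rintro ⟨k, g⟩
    rw [norm_mul, norm_inv, norm_mul, norm_pow, RCLike.norm_ofNat, RCLike.norm_ofNat]
    refine mul_le_mul_of_nonneg_left ?_ (by positivity)
    calc ‖ev 𝕜 ⟨⟨k, g⟩⟩ (T (Ph 𝕜 M k g) : EE.{u} 𝕜)‖ ≤ ‖(T (Ph 𝕜 M k g) : EE.{u} 𝕜)‖ :=
          lp.norm_apply_le_norm ENNReal.top_ne_zero _ _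
      _ = ‖T (Ph 𝕜 M k g)‖ := rfl
      _ ≤ ‖T‖ * ‖Ph 𝕜 M k g‖ := T.le_opNorm _
      _ ≤ _ := mul_le_mul_of_nonneg_left (norm_Ph_le 𝕜 M k g) T.opNorm_nonneg
  have hsum : Summable fun p : (Σ k, GG k) =>
      ((2 : ℝ) ^ p.1 * 4)⁻¹ * (‖T‖ * (46 * (3/4 : ℝ) ^ p.1)) := by
    rw [summable_sigma_of_nonneg (fun p => by positivity)]
    refine ⟨fun k => (hasSum_fintype _).summable, ?_⟩
    have : (fun k => ∑' g : GG k, ((2 : ℝ) ^ k * 4)⁻¹ * (‖T‖ * (46 * (3/4 : ℝ) ^ k))) =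
        fun k => (‖T‖ * 46) * (3/4 : ℝ) ^ k := by
      funext k
      rw [tsum_fintype, Finset.sum_const, Finset.card_univ, card_GG, nsmul_eq_mul]
      push_cast
      have : (2 : ℝ) ^ k ≠ 0 := by positivity
      field_simp
    rw [this]
    exact (summable_geometric_of_lt_one (by norm_num) (by norm_num)).mul_left _
  have hs := (Summable.of_norm_bounded hsum hbound).hasSum
  set a := ∑' p : (Σ k, GG k), ((2 : 𝕜) ^ p.1 * 4)⁻¹ * ev 𝕜 ⟨p⟩ (T (Ph 𝕜 M p.1 p.2) : EE.{u} 𝕜)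
    with ha
  have h1 : HasSum (fun k => be 𝕜 M (k + 1) T - be 𝕜 M k T) a := by
    refine hs.sigma fun k => ?_
    rw [be_succ_sub]
    exact hasSum_fintype _
  have h2 := h1.tendsto_sum_nat
  have h2' : ∀ n, ∑ k ∈ Finset.range n, (be 𝕜 M (k + 1) T - be 𝕜 M k T) =
      be 𝕜 M n T - be 𝕜 M 0 T := fun n => Finset.sum_range_sub (fun k => be 𝕜 M k T) n
  simp only [h2'] at h2
  have h3 : Tendsto (fun n => be 𝕜 M n T - be 𝕜 M 0 T) atTop (𝓝 (L - be 𝕜 M 0 T)) :=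
    hL.sub tendsto_const_nhds
  rw [← tendsto_nhds_unique h2 h3]
  exact hs

end Pool.Agent.Lib_helper7.Davie
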