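import Mathlib
import Pool.Agent.Lib_helper7.Davie.Beta

set_option autoImplicit false

open Finset Filter Topology
open scoped ENNReal

universe u

namespace Pool.Agent.Lib_helper7.Davie

/-- the index set of the nuclear representation -/
abbrev II : Type := Unit ⊕ (Σ k, GG k)

theorem tendsto_cofinite_II {E : Type*} [NormedAddCommGroup E] (f : II → E) (c : ℕ → ℝ)
    (hc : Tendsto c atTop (𝓝 0)) (hf : ∀ p : (Σ k, GG k), ‖f (Sum.inr p)‖ ≤ c p.1) :
    Tendsto f cofinite (𝓝 0) := by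
  rw [Metric.tendsto_nhds]
  intro ε hε
  rw [Filter.eventually_cofinite]
  obtain ⟨N, hN⟩ := (Metric.tendsto_atTop.1 hc) ε hε
  have hfin : ((Set.range (Sum.inl : Unit → II)) ∪
      (Sum.inr '' ((fun p : (Σ k, GG k) => p.1) ⁻¹' (Set.Iio N)))).Finite := by
    refine (Set.finite_range _).union (Set.Finite.image _ ?_)
    have : ((fun p : (Σ k, GG k) => p.1) ⁻¹' (Set.Iio N)) ⊆
        ((Finset.range N).sigma (fun k => (Finset.univ : Finset (GG k))) : Set (Σ k, GG k)) := by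
      rintro ⟨k, g⟩ hk
      simpa using hk
    exact (Finset.finite_toSet _).subset this
  refine hfin.subset ?_
  rintro (x | p) hx
  · left; exact ⟨x, rfl⟩
  · right
    refine ⟨p, ?_, rfl⟩
    by_contra hcon
    have hp : N ≤ p.1 := by simpa using hcon
    have h1 := hN p.1 hp
    apply hx
    rw [dist_zero_right] at h1 ⊢
    exact (hf p).trans_lt ((le_abs_self _).trans_lt h1)

/-- the positive weights -/
noncomputable def bb : II → ℝ
  | Sum.inl _ => 1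
  | Sum.inr p => (14/15 : ℝ) ^ p.1 * ((2 : ℝ) ^ p.1 * 4)⁻¹

theorem bb_nonneg (i : II) : 0 ≤ bb i := by
  rcases i with x | p
  · exact zero_le_one
  · unfold bb; positivity

theorem bb_summable : Summable bb := by
  have h1 : Summable (bb ∘ (Sum.inl : Unit → II)) := (hasSum_fintype _).summable
  have h2 : Summable (bb ∘ (Sum.inr : (Σ k, GG k) → II)) := by
    rw [summable_sigma_of_nonneg (f := bb ∘ (Sum.inr : (Σ k, GG k) → II)) (fun p => bb_nonneg _)]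
    refine ⟨fun k => (hasSum_fintype _).summable, ?_⟩
    have : (fun k => ∑' g : GG k, (bb ∘ (Sum.inr : (Σ k, GG k) → II)) ⟨k, g⟩) =
        fun k => (14/15 : ℝ) ^ k := by
      funext k
      rw [tsum_fintype]
      have : ∀ g : GG k, (bb ∘ (Sum.inr : (Σ k, GG k) → II)) ⟨k, g⟩ =
        (14/15 : ℝ) ^ k * ((2 : ℝ) ^ k * 4)⁻¹ := fun _ => rfl
      simp only [this]
      rw [Finset.sum_const, Finset.card_univ, card_GG, nsmul_eq_mul]
      push_cast
      have : (2 : ℝ) ^ k ≠ 0 := by positivity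
      field_simp
    rw [this]
    exact summable_geometric_of_lt_one (by norm_num) (by norm_num)
  exact (h1.hasSum.sum h2.hasSum).summable

variable (𝕜 : Type) [RCLike 𝕜] (M : Mats)

/-- the element of `JJ 0` -/
def j0 : JJ 0 := fun _ => false

/-- the vectors of the nuclear representation -/
noncomputable def yy : II → XX.{u} 𝕜 M
  | Sum.inl _ => ex 𝕜 M 0 j0
  | Sum.inr p => (((8/7 : ℝ) ^ p.1 : ℝ) : 𝕜) • Ph 𝕜 M p.1 p.2

/-- the functionals of the nuclear representation -/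
noncomputable def yd : II → (XX.{u} 𝕜 M →L[𝕜] 𝕜)
  | Sum.inl _ => al 𝕜 0 (M.V 0 j0) ∘L (XX.{u} 𝕜 M).subtypeL
  | Sum.inr p => (((15/16 : ℝ) ^ p.1 : ℝ) : 𝕜) • (ev 𝕜 ⟨p⟩ ∘L (XX.{u} 𝕜 M).subtypeL)

theorem yy_tendsto : Tendsto (yy.{u} 𝕜 M) cofinite (𝓝 0) := by
  refine tendsto_cofinite_II _ (fun k => 46 * (6/7 : ℝ) ^ k) ?_ ?_
  · have := (tendsto_pow_atTop_nhds_zero_of_lt_one (r := (6/7 : ℝ)) (by norm_num)
      (by norm_num)).const_mul 46
    simpa using this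
  · rintro ⟨k, g⟩
    unfold yy
    rw [norm_smul, RCLike.norm_ofReal, abs_of_nonneg (by positivity)]
    calc (8/7 : ℝ) ^ k * ‖Ph 𝕜 M k g‖ ≤ (8/7 : ℝ) ^ k * (46 * (3/4 : ℝ) ^ k) :=
          mul_le_mul_of_nonneg_left (norm_Ph_le 𝕜 M k g) (by positivity)
      _ = 46 * ((8/7) * (3/4) : ℝ) ^ k := by rw [mul_pow]; ring
      _ = _ := by norm_num

theorem yd_tendsto : Tendsto (yd.{u} 𝕜 M) cofinite (𝓝 0) := by
  refine tendsto_cofinite_II (yd.{u} 𝕜 M) (fun k => (15/16 : ℝ) ^ k) ?_ ?_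
  · exact tendsto_pow_atTop_nhds_zero_of_lt_one (r := (15/16 : ℝ)) (by norm_num) (by norm_num)
  · rintro ⟨k, g⟩
    refine ContinuousLinearMap.opNorm_le_bound _ (by positivity) fun x => ?_
    unfold yd
    rw [smul_apply, norm_smul, RCLike.norm_ofReal, abs_of_nonneg (by positivity)]
    refine mul_le_mul_of_nonneg_left ?_ (by positivity)
    exact lp.norm_apply_le_norm ENNReal.top_ne_zero _ _

theorem hasSum_trace (T : XX.{u} 𝕜 M →L[𝕜] XX.{u} 𝕜 M) (L : 𝕜)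
    (hL : Tendsto (fun n => be 𝕜 M n T) atTop (𝓝 L)) :
    HasSum (fun i => ((bb i : ℝ) : 𝕜) * yd 𝕜 M i (T (yy 𝕜 M i))) L := by
  have h2 := hasSum_Ph 𝕜 M T L hL
  have h1 : HasSum ((fun i => ((bb i : ℝ) : 𝕜) * yd 𝕜 M i (T (yy 𝕜 M i))) ∘ (Sum.inl : Unit → II))
      (be 𝕜 M 0 T) := by
    have h3 : be 𝕜 M 0 T = ∑ x : Unit,
        ((fun i => ((bb i : ℝ) : 𝕜) * yd 𝕜 M i (T (yy 𝕜 M i))) ∘ (Sum.inl : Unit → II)) x := by
      unfold be
      simp only [Function.comp, bb, yy, yd, RCLike.ofReal_one, one_mul]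
      rw [Fintype.sum_subsingleton _ j0, Fintype.sum_subsingleton _ ()]
      simp
    rw [h3]
    exact hasSum_fintype _
  have h4 : HasSum ((fun i => ((bb i : ℝ) : 𝕜) * yd 𝕜 M i (T (yy 𝕜 M i))) ∘
      (Sum.inr : (Σ k, GG k) → II)) (L - be 𝕜 M 0 T) := by
    convert h2 using 1
    funext p
    simp only [Function.comp, bb, yy, yd, map_smul, smul_apply, smul_eq_mul,
      ContinuousLinearMap.comp_apply, Submodule.subtypeL_apply]
    have h5 : (((14/15 : ℝ) ^ p.1 * ((2 : ℝ) ^ p.1 * 4)⁻¹ : ℝ) : 𝕜) *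
        ((((8/7 : ℝ) ^ p.1 : ℝ) : 𝕜) * (((15/16 : ℝ) ^ p.1 : ℝ) : 𝕜)) = ((2 : 𝕜) ^ p.1 * 4)⁻¹ := by
      rw [← RCLike.ofReal_mul, ← RCLike.ofReal_mul, ← mul_pow]
      have h6 : (14/15 : ℝ) ^ p.1 * ((2 : ℝ) ^ p.1 * 4)⁻¹ * ((8/7) * (15/16) : ℝ) ^ p.1 =
          ((2 : ℝ) ^ p.1 * 4)⁻¹ := by
        rw [mul_right_comm, ← mul_pow]
        norm_num
      rw [h6]
      push_cast
      rfl
    rw [← h5]
    ring
  have := h1.sum h4
  rwa [add_sub_cancel] at this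

/-- **Core theorem.** A Banach space with a nuclear functional (trace-type) which is `1` at the
identity and `0` at every finite-rank operator. -/
theorem core : ∃ (X : Type u) (_ : NormedAddCommGroup X) (_ : NormedSpace 𝕜 X)
    (_ : CompleteSpace X) (y : II → X) (y' : II → (X →L[𝕜] 𝕜)) (b : II → ℝ),
    Tendsto y cofinite (𝓝 0) ∧ Tendsto y' cofinite (𝓝 0) ∧ (∀ i, 0 ≤ b i) ∧ Summable b ∧
    HasSum (fun i => ((b i : ℝ) : 𝕜) * y' i (y i)) 1 ∧
    ∀ S : X →L[𝕜] X, FiniteDimensional 𝕜 (LinearMap.range (S : X →ₗ[𝕜] X)) →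
      HasSum (fun i => ((b i : ℝ) : 𝕜) * y' i (S (y i))) 0 := by
  obtain ⟨M⟩ := nonempty_mats
  refine ⟨XX.{u} 𝕜 M, inferInstance, inferInstance, inferInstance, yy 𝕜 M, yd 𝕜 M, bb,
    yy_tendsto 𝕜 M, yd_tendsto 𝕜 M, bb_nonneg, bb_summable, ?_, ?_⟩
  · have := hasSum_trace 𝕜 M (ContinuousLinearMap.id 𝕜 _) 1 (by
      simp only [be_one]; exact tendsto_const_nhds)
    exact this
  · intro S hS
    exact hasSum_trace 𝕜 M S 0 (be_tendsto_zero 𝕜 M S hS)

/-- **Enflo's theorem** (Davie's example): a Banach space without the approximation property. -/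
theorem enflo : ∃ (X : Type u) (_ : NormedAddCommGroup X) (_ : NormedSpace 𝕜 X)
    (_ : CompleteSpace X) (K : Set X) (δ : ℝ), IsCompact K ∧ 0 < δ ∧
    ∀ S : X →L[𝕜] X, FiniteDimensional 𝕜 (LinearMap.range (S : X →ₗ[𝕜] X)) →
      ∃ x ∈ K, δ < ‖S x - x‖ := by
  obtain ⟨X, i1, i2, i3, y, y', b, hy, hy', hb, hbs, h1, h0⟩ := core.{u} 𝕜
  obtain ⟨C, hC⟩ : ∃ C : ℝ, ∀ i, ‖y' i‖ ≤ C := by
    have := hy'.norm
    rw [norm_zero] at this
    have hbd : ∀ᶠ i in cofinite, ‖y' i‖ < 1 := this.eventually (gt_mem_nhds zero_lt_one)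
    rw [Filter.eventually_cofinite] at hbd
    obtain ⟨C, hC⟩ := (hbd.image (fun i => ‖y' i‖)).bddAbove
    refine ⟨max C 1, fun i => ?_⟩
    by_cases hi : ‖y' i‖ < 1
    · exact hi.le.trans (le_max_right _ _)
    · exact (hC ⟨i, hi, rfl⟩).trans (le_max_left _ _)
  have hC0 : 0 ≤ C := (norm_nonneg _).trans (hC (Sum.inl ()))
  set D : ℝ := C * ∑' i, b i with hD
  have hD0 : 0 ≤ D := mul_nonneg hC0 (tsum_nonneg hb)
  refine ⟨X, i1, i2, i3, insert 0 (Set.range y), (2 * (D + 1))⁻¹,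
    hy.isCompact_insert_range_of_cofinite, by positivity, ?_⟩
  intro S hS
  by_contra hcon
  push Not at hcon
  have h2 := h1.sub (h0 S hS)
  rw [sub_zero] at h2
  have h3 : ∀ i, ‖((b i : ℝ) : 𝕜) * y' i (y i) - ((b i : ℝ) : 𝕜) * y' i (S (y i))‖ ≤
      b i * (C * (2 * (D + 1))⁻¹) := by
    intro i
    rw [← mul_sub, norm_mul, RCLike.norm_ofReal, abs_of_nonneg (hb i)]
    refine mul_le_mul_of_nonneg_left ?_ (hb i)
    rw [← map_sub]
    calc ‖y' i (y i - S (y i))‖ ≤ ‖y' i‖ * ‖y i - S (y i)‖ := (y' i).le_opNorm _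
      _ ≤ C * (2 * (D + 1))⁻¹ := by
          refine mul_le_mul (hC i) ?_ (norm_nonneg _) hC0
          rw [norm_sub_rev]
          exact hcon _ (Set.mem_insert_of_mem _ ⟨i, rfl⟩)
  have h4 : ‖(1 : 𝕜)‖ ≤ (∑' i, b i) * (C * (2 * (D + 1))⁻¹) := by
    rw [← h2.tsum_eq]
    refine (tsum_of_norm_bounded (hbs.mul_right _).hasSum h3).trans (le_of_eq ?_)
    rw [tsum_mul_right]
  rw [norm_one] at h4
  have h5 : (∑' i, b i) * (C * (2 * (D + 1))⁻¹) = D * (2 * (D + 1))⁻¹ := by rw [hD]; ring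
  rw [h5, ← div_eq_mul_inv, le_div_iff₀ (by positivity)] at h4
  linarith

end Pool.Agent.Lib_helper7.Davie
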