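import Mathlib
import Pool.Agent.Lib_helper7.Davie.Core

set_option autoImplicit false

open Finset Filter Topology
open scoped ENNReal

universe u

namespace Pool.Agent.Lib_helper7.Davie

variable (𝕜 : Type) [RCLike 𝕜] (M : Mats)

/-- finite-dimensional pieces of `XX` -/
noncomputable def EN (n : ℕ) : Submodule 𝕜 (XX.{u} 𝕜 M) :=
  Submodule.span 𝕜 ((fun p : (Σ k, JJ k) => ex 𝕜 M p.1 p.2) '' {p | p.1 ≤ n})

theorem ex_mem_EN {k n : ℕ} (h : k ≤ n) (j : JJ k) : ex.{u} 𝕜 M k j ∈ EN.{u} 𝕜 M n :=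
  Submodule.subset_span ⟨⟨k, j⟩, h, rfl⟩

theorem EN_mono : Monotone (EN.{u} 𝕜 M) := fun _ _ h =>
  Submodule.span_mono (Set.image_mono fun _ hp => le_trans hp h)

theorem sigma_le_finite {T : ℕ → Type} [∀ k, Fintype (T k)] (n : ℕ) :
    {p : (Σ k, T k) | p.1 ≤ n}.Finite := by
  have : {p : (Σ k, T k) | p.1 ≤ n} ⊆
      ((Finset.range (n + 1)).sigma (fun k => (Finset.univ : Finset (T k))) : Set (Σ k, T k)) := by
    rintro ⟨k, g⟩ hk
    simp only [Set.mem_ofPred_eq] at hk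
    simp
    omega
  exact (Finset.finite_toSet _).subset this

instance EN_fin (n : ℕ) : FiniteDimensional 𝕜 (EN.{u} 𝕜 M n) :=
  FiniteDimensional.span_of_finite 𝕜 ((sigma_le_finite n).image _)

/-- level of an index -/
def lv : II → ℕ
  | Sum.inl _ => 0
  | Sum.inr p => p.1 + 1

theorem lv_finite (n : ℕ) : {i | lv i ≤ n}.Finite := by
  have : {i | lv i ≤ n} ⊆ (Set.range (Sum.inl : Unit → II)) ∪
      (Sum.inr '' {p : (Σ k, GG k) | p.1 ≤ n}) := by
    rintro (x | p) hx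
    · left; exact ⟨x, rfl⟩
    · right
      refine ⟨p, ?_, rfl⟩
      simp only [Set.mem_ofPred_eq, lv] at hx ⊢
      omega
  exact ((Set.finite_range _).union ((sigma_le_finite n).image _)).subset this

theorem yy_mem (i : II) : yy.{u} 𝕜 M i ∈ EN.{u} 𝕜 M (lv i) := by
  rcases i with x | ⟨k, g⟩
  · exact ex_mem_EN 𝕜 M le_rfl _
  · unfold yy lv
    refine Submodule.smul_mem _ _ ?_
    unfold Ph
    refine Submodule.sub_mem _ ?_ ?_
    · exact Submodule.smul_mem _ _ (Submodule.sum_mem _ fun i _ =>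
        Submodule.smul_mem _ _ (ex_mem_EN 𝕜 M le_rfl _))
    · exact Submodule.smul_mem _ _ (Submodule.sum_mem _ fun i _ =>
        Submodule.smul_mem _ _ (ex_mem_EN 𝕜 M (Nat.le_succ k) _))

/-- auxiliary form of the core theorem -/
theorem core1 : ∃ (X : Type u) (_ : NormedAddCommGroup X) (_ : NormedSpace 𝕜 X)
    (_ : CompleteSpace X) (E : ℕ → Submodule 𝕜 X) (y : II → X) (y' : II → (X →L[𝕜] 𝕜))
    (b : II → ℝ) (N : II → ℕ),
    Monotone E ∧ (∀ n, FiniteDimensional 𝕜 (E n)) ∧ (∀ n, {i | N i ≤ n}.Finite) ∧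
    (∀ i, y i ∈ E (N i)) ∧
    Tendsto y cofinite (𝓝 0) ∧ Tendsto y' cofinite (𝓝 0) ∧ (∀ i, 0 ≤ b i) ∧ Summable b ∧
    HasSum (fun i => ((b i : ℝ) : 𝕜) * y' i (y i)) 1 ∧
    ∀ S : X →L[𝕜] X, FiniteDimensional 𝕜 (LinearMap.range (S : X →ₗ[𝕜] X)) →
      HasSum (fun i => ((b i : ℝ) : 𝕜) * y' i (S (y i))) 0 := by
  obtain ⟨M⟩ := nonempty_mats
  refine ⟨XX.{u} 𝕜 M, inferInstance, inferInstance, inferInstance, EN 𝕜 M, yy 𝕜 M, yd 𝕜 M, bb, lv,
    EN_mono 𝕜 M, EN_fin 𝕜 M, lv_finite, yy_mem 𝕜 M,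
    yy_tendsto 𝕜 M, yd_tendsto 𝕜 M, bb_nonneg, bb_summable, ?_, ?_⟩
  · have := hasSum_trace 𝕜 M (ContinuousLinearMap.id 𝕜 _) 1 (by
      simp only [be_one]; exact tendsto_const_nhds)
    exact this
  · intro S hS
    exact hasSum_trace 𝕜 M S 0 (be_tendsto_zero 𝕜 M S hS)

theorem bdd_of_tendsto {I E : Type*} [NormedAddCommGroup E] (f : I → E)
    (h : Tendsto f cofinite (𝓝 0)) : ∃ C : ℝ, 1 ≤ C ∧ ∀ i, ‖f i‖ ≤ C := by
  have := h.norm
  rw [norm_zero] at this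
  have hbd : ∀ᶠ i in cofinite, ‖f i‖ < 1 := this.eventually (gt_mem_nhds zero_lt_one)
  rw [Filter.eventually_cofinite] at hbd
  obtain ⟨C, hC⟩ := (hbd.image (fun i => ‖f i‖)).bddAbove
  refine ⟨max C 1, le_max_right _ _, fun i => ?_⟩
  by_cases hi : ‖f i‖ < 1
  · exact hi.le.trans (le_max_right _ _)
  · exact (hC ⟨i, hi, rfl⟩).trans (le_max_left _ _)

/-- **Core theorem, second form.** -/
theorem core2 : ∃ (X : Type u) (_ : NormedAddCommGroup X) (_ : NormedSpace 𝕜 X)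
    (_ : CompleteSpace X) (E : ℕ → Submodule 𝕜 X) (y : II → X) (y' : II → (X →L[𝕜] 𝕜))
    (b : II → ℝ) (N : II → ℕ),
    Monotone E ∧ (∀ n, FiniteDimensional 𝕜 (E n)) ∧ (∀ n, {i | N i ≤ n}.Finite) ∧
    (∀ i, y i ∈ E (N i)) ∧
    Tendsto y cofinite (𝓝 0) ∧ Tendsto y' cofinite (𝓝 0) ∧ (∀ i, 0 ≤ b i) ∧ Summable b ∧
    HasSum (fun i => ((b i : ℝ) : 𝕜) * y' i (y i)) 1 ∧
    ∀ x : X, HasSum (fun i => (((b i : ℝ) : 𝕜) * y' i x) • y i) 0 := by
  obtain ⟨X, i1, i2, i3, E, y, y', b, N, hE, hEf, hN, hyE, hy, hy', hb, hbs, h1, h0⟩ :=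
    core1.{u} 𝕜
  refine ⟨X, i1, i2, i3, E, y, y', b, N, hE, hEf, hN, hyE, hy, hy', hb, hbs, h1, fun x => ?_⟩
  obtain ⟨C, hC1, hC⟩ := bdd_of_tendsto y' hy'
  obtain ⟨C', hC1', hC'⟩ := bdd_of_tendsto y hy
  have hsum : Summable (fun i => (((b i : ℝ) : 𝕜) * y' i x) • y i) := by
    refine Summable.of_norm_bounded (hbs.mul_right (C * ‖x‖ * C')) fun i => ?_
    rw [norm_smul, norm_mul, RCLike.norm_ofReal, abs_of_nonneg (hb i), mul_assoc]
    refine mul_le_mul_of_nonneg_left ?_ (hb i)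
    refine mul_le_mul ?_ (hC' i) (norm_nonneg _) (by positivity)
    exact ((y' i).le_opNorm x).trans (mul_le_mul_of_nonneg_right (hC i) (norm_nonneg _))
  obtain ⟨v, hv⟩ := hsum
  have hv0 : v = 0 := by
    by_contra hne
    obtain ⟨f, _, hf⟩ := exists_dual_vector 𝕜 v (norm_ne_zero_iff.2 hne)
    have h1 : HasSum (fun i => f ((((b i : ℝ) : 𝕜) * y' i x) • y i)) (f v) := hv.mapL f
    have h2 : HasSum (fun i => ((b i : ℝ) : 𝕜) * y' i
        ((f.smulRight x : X →L[𝕜] X) (y i))) 0 := by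
      refine h0 (f.smulRight x) ?_
      have : LinearMap.range ((f.smulRight x : X →L[𝕜] X) : X →ₗ[𝕜] X) ≤
          Submodule.span 𝕜 {x} := by
        rintro _ ⟨z, rfl⟩
        exact Submodule.smul_mem _ _ (Submodule.mem_span_singleton_self x)
      exact Submodule.finiteDimensional_of_le this
    have h3 : f v = 0 := by
      refine h1.unique ?_
      convert h2 using 1
      funext i
      simp only [map_smul, ContinuousLinearMap.smulRight_apply, smul_eq_mul]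
      ring
    rw [h3] at hf
    have : (‖v‖ : 𝕜) ≠ 0 := by
      rw [Ne, RCLike.ofReal_eq_zero]
      exact norm_ne_zero_iff.2 hne
    exact this hf.symm
  rw [hv0] at hv
  exact hv

end Pool.Agent.Lib_helper7.Davie
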